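import Mathlib
import Pool.Agent.R617.FDT.Sparse

/-!
# Triangle detection needs many reads or much memory

We consider Boolean circuits with AND gates of fan-in two, OR gates of any fan-in and negations at
the inputs, whose inputs are the bits of a graph with `n` vertices: the bit of the pair `{u, v}` says
if `u` and `v` are adjacent. Such a circuit accepts if and only if it has a proof tree all of whose
leaves are true literals; the formal degree in an input bit is the largest number of leaves with this
bit, that is, the number of times this bit is read. Nondeterministic, in particular deterministic,
branching programs are such circuits (the logarithm of the size is the memory, and a bit which is read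
at most `k` times on every path has degree at most `k`), and so are programs with a stack; a proof
tree of a circuit may even read any part of the input again and again in its branches.

The circuits have to recognise the triangle-free graphs among the graphs with at most `2 n` edges (so
the input size `n + m` of the problem is at most `3 n`). The graphs with a triangle are recognised by a
disjunction of small conjunctions, each of which reads three bits once, and checking all triples is a
circuit of polynomial size which recognises the triangle-free graphs and has formal degree `n - 2` in
each bit. We show that the size is `2 ^ Ω (n)` if the formal degrees sum up to `O (n ^ 2)`, that is, if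
they are bounded on average. So algorithms of this kind with a memory of `o (n)` bits must read the
bits more than a constant number of times on average, and with a memory of `O (log n)` bits they must
read them `Ω (log n)` times. The statement holds for each vertex separately: it is enough that the
degrees in the bits of the pairs at one vertex sum up to at most `k n`, while all the other bits may be
read as often as one likes; and then it remains true for circuits with one-sided randomness, which
find out only with probability `2 ^ (- n / D)` that there is no triangle.

The hard graphs consist of edges from the vertex `u` to some of the other vertices and of a matching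
of the other vertices.
-/

set_option autoImplicit false

namespace Pool.Agent.Results.MP_ad5e8e_lc.FormalDegree

open Pool.Agent.W896.RK Pool.Agent.W896.FD Pool.Agent.R617.FDT

/-- 1. Let `u` be a vertex and `U r` (`r` in a finite nonempty set) circuits none of which accepts a
graph with a triangle and at most `2 n` edges, such that every triangle-free graph with at most `2 n`
edges is accepted by at least a `2 ^ (- ⌊n / 2 ^ (60 (k + 3))⌋)` fraction of them. If in each `U r` the
formal degrees in the bits of the pairs `{u, v}` sum up to at most `k n`, then some `U r` has `g` gates
with `n ≤ 2 ^ (60 (k + 3)) (⌊log₂ g⌋ + 1)`.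

2. If a circuit accepts exactly the triangle-free graphs among the graphs with at most `2 n` edges, and
its formal degrees in all the bits sum up to at most `k n ^ 2`, then it has `g` gates with
`n ≤ 2 ^ (60 (2 k + 3)) (⌊log₂ g⌋ + 1)`. -/
theorem result (k n : ℕ) :
    (∀ (u : Fin n) (R : Type) [Fintype R] [Nonempty R] (U : R → Circ (Sym2 (Fin n))),
      (∀ r (G : SimpleGraph (Fin n)), G.edgeSet.ncard ≤ 2 * n →
        (U r).Val (bits G) (U r).out → G.CliqueFree 3) →
      (∀ G : SimpleGraph (Fin n), G.edgeSet.ncard ≤ 2 * n → G.CliqueFree 3 →
        Nat.card R ≤ 2 ^ (n / 2 ^ (60 * (k + 3))) *
          Nat.card {r // (U r).Val (bits G) (U r).out}) →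
      (∀ r, ∃ d : (U r).G → Sym2 (Fin n) → ℕ, IsDeg (U r) id d ∧
        ∑ v, d (U r).out s(u, v) ≤ k * n) →
      ∃ r, n ≤ 2 ^ (60 * (k + 3)) * (Nat.log 2 (Fintype.card (U r).G) + 1)) ∧
    ∀ U : Circ (Sym2 (Fin n)),
      (∀ G : SimpleGraph (Fin n), G.edgeSet.ncard ≤ 2 * n →
        (U.Val (bits G) U.out ↔ G.CliqueFree 3)) →
      (∃ d : U.G → Sym2 (Fin n) → ℕ, IsDeg U id d ∧ ∑ e, d U.out e ≤ k * n ^ 2) →
      n ≤ 2 ^ (60 * (2 * k + 3)) * (Nat.log 2 (Fintype.card U.G) + 1) :=
  ⟨fun u R _ _ U hU hc hd => vertex_sparse k n u R U hU hc hd,
    fun U hU hd => total_sparse k n U hU hd⟩

end Pool.Agent.Results.MP_ad5e8e_lc.FormalDegree
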