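import Pool.Agent.R562.TLMain

/-!
# Triangle detection: nondeterministic machines with slow heads which accept triangle-free graphs

The input is a list of the `N` edges of a simple graph on `V ≥ 2 N` vertices, each edge once, in any
order, and a head reads a whole edge in one step.  Nonuniform nondeterministic programs with `k`
two-way heads, which move by at most one position in a step, with at most `2 ^ S` configurations,
which accept the lists of the edges of triangle-free graphs within `T` steps and never accept a
list of the edges of a graph with a triangle, satisfy `k (S + 1) (k T + N) ^ 2 ≥ N ^ 3 / 10 ^ 9`.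
So with a bounded number of heads and with space `N ^ o(1)` they need time `N ^ (3 / 2 - o(1))`.
-/

set_option autoImplicit false

namespace Pool.Agent.Results.MP_ad5e8e_lc.NondeterministicSlowHeads

open Pool.Agent.TH457.HT Pool.Agent.R562.Ht

/-- Let `P` be a nondeterministic program with `k ≥ 1` two-way heads for words of `N` edges and
with at most `2 ^ S` configurations.  If for each triangle-free graph on `V ≥ 2 N` vertices each
list of its edges, of length `N`, is accepted by some computation of at most `T` steps, and if no
list of the edges of a graph with a triangle is accepted by any computation, then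
`N ^ 3 ≤ 10 ^ 9 * k * (S + 1) * (k * T + N) ^ 2`. -/
theorem result (V N k T S : ℕ) (hV : 2 * N ≤ V) (P : HeadProg (Sym2 (Fin V)) N k) (hk : 1 ≤ k)
    (hS : Fintype.card P.Q * N ^ k ≤ 2 ^ S)
    (hacc : ∀ (G : SimpleGraph (Fin V)) (e : Fin N → Sym2 (Fin V)), EdgeList G e →
      G.CliqueFree 3 → P.AcceptsIn T e)
    (hsound : ∀ (G : SimpleGraph (Fin V)) (e : Fin N → Sym2 (Fin V)), EdgeList G e →
      ¬ G.CliqueFree 3 → ¬ P.Accepts e) :
    N ^ 3 ≤ 10 ^ 9 * (k * (S + 1) * (k * T + N) ^ 2) :=
  tl_nd V N hV P T S hk hS (fun G e h1 h2 => by_contra fun h3 => hsound G e h1 h3 h2) hacc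

end Pool.Agent.Results.MP_ad5e8e_lc.NondeterministicSlowHeads
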