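import Pool.Agent.R562.TLMain

/-!
# Triangle detection: randomized machines with slow heads

The input is a list of the `N` edges of a simple graph on `V ≥ 2 N` vertices, each edge once, in any
order, and a head reads a whole edge in one step.  Randomized nonuniform programs with `k` two-way
heads, which move by at most one position in a step, with at most `2 ^ S` configurations and with
error probability at most `1 / 20000` on both sides, which find out whether there is a triangle
within `T` steps, satisfy `k (S + 1) (k T + N) ^ 2 ≥ N ^ 3 / 10 ^ 9`.  So with a bounded number of
heads and with space `N ^ o(1)` they need time `N ^ (3 / 2 - o(1))`, the exponent of the algorithm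
of Itai and Rodeh, and with space `N ^ (1 - 2 δ - o(1))` they need time `N ^ (1 + δ)`.

Proof. The list is divided into zones of two sides.  Each value of a zone is a pair `(α, β)`.  A
value of a zone of the first side is given by two edges `z x_α` and `z y_β` with a private vertex
`z`, and a value of a zone of the second side by the edge `x_α y_β`.  There is a triangle iff some
value occurs on both sides.  The rest is the theorem on slow heads with two sides
(`Pool.Agent.R562.HtR`); since the graph has to be simple, the values of each side have to be
different, so the known theorem on distinct blocks would only give the exponent `5 / 4`.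
-/

set_option autoImplicit false

namespace Pool.Agent.Results.MP_ad5e8e_lc.SlowHeads

open Pool.Agent.TH457.HT Pool.Agent.R562.Ht

open Classical in
/-- Let `p`, `P` be a random program with `k ≥ 1` two-way heads for words of `N` edges and with at
most `2 ^ S` configurations.  If for each simple graph on `V ≥ 2 N` vertices and each list of its
edges, of length `N`, the right answer to the question whether the graph contains a triangle is
given within `T` steps with probability at least `1 - 1 / 20000`, then
`N ^ 3 ≤ 10 ^ 9 * k * (S + 1) * (k * T + N) ^ 2`. -/
theorem result (V N k T S : ℕ) (hV : 2 * N ≤ V) (Ω : Type) [Fintype Ω] (p : Ω → ℝ)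
    (P : Ω → DetProg (Sym2 (Fin V)) N k)
    (hp : ∀ ω, 0 ≤ p ω) (hp1 : ∑ ω, p ω = 1) (hk : 1 ≤ k)
    (hS : ∀ ω, Fintype.card (P ω).Q * N ^ k ≤ 2 ^ S)
    (h : ∀ (G : SimpleGraph (Fin V)) (e : Fin N → Sym2 (Fin V)), EdgeList G e →
      1 - 1 / 20000 ≤ prob p P T e (decide (¬ G.CliqueFree 3))) :
    N ^ 3 ≤ 10 ^ 9 * (k * (S + 1) * (k * T + N) ^ 2) :=
  tl_rand V N hV p hp hp1 P T S hk hS h

end Pool.Agent.Results.MP_ad5e8e_lc.SlowHeads
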