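import Mathlib
import Pool.Agent.R617.WFT.Tri

/-!
# Triangles in sparse graphs: branching programs which test formulas over machine words

The input consists of the list of the `m` edges of a simple graph with `2 m` vertices. Has the graph a
triangle? The items of the input are the edges (each given by its smaller and its larger vertex).

The formulas (`Fml`) compute with integers: they are built from constants, arbitrary functions of one
item, and arbitrary functions of `w` words of length `c log₂ m`, where each word is an arbitrary
function of one item (for `c ≥ 3` a word may be the whole edge), by sums, products, maxima, minima,
sign tests `pos` (with the values `0`, `1`), and gates `sym` of any fan-in whose value is an arbitrary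
function of the number of positive inputs. All numbers which occur have absolute value at most
`m ^ v`. A formula accepts if its value is positive. Its size is the number of leaves (constants are
free) plus the number of wires which lead to gates `sym`. In a branching program (`Program`) every
inner node tests whether a formula accepts; its size is the number of inner nodes plus the sizes of
all these formulas.

We show that random branching programs of size at most `s` with error probability at most `1 / 3` need
`m ^ 2 ≤ 3000 w (v + c w) s`: for constant `w`, `v`, `c` the size must be quadratic in the length of
the list. (The size of the input of the problem is `n + m = 3 m`, so in this model the bound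
`s ^ (1 + δ)` of the problem holds with `δ = 1`.)

Proof. Each edge can ask for about `m log₂ m / 4` bits which are encoded in the list of the other
edges. We count the functions of this edge which arise when the other items are fixed (Nechiporuk's
method). Between the `r` leaves which see the edge there are `O (r)` places at which other parts of
the formula enter, and the function of the value below such a place is one of the functions
`clamp (a x + b)`, or has few values; so it is given by `O (v log m)` bits, and this is closed under
composition (`Pool.Agent.Y638.WF.Core`).
-/

set_option autoImplicit false

namespace Pool.Agent.Results.MP_ad5e8e_lc.WordPrograms

open Pool.Agent.TH697.Form (IsProb)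
open Pool.Agent.TH697.Row (ApproximatesOn)
open Pool.Agent.TH457.Ary.Tri (Edge Simple triangle)
open Pool.Agent.Y638.WF (Program)

theorem result : ∀ m c w v : ℕ, 1000 ≤ m → 1 ≤ c → 1 ≤ w → 1 ≤ v →
    ∀ (Ω : Type) [Fintype Ω] (μ : Ω → ℝ), IsProb μ →
      ∀ (s : ℕ) (B : Ω → Program (Fin m) (fun _ => Edge (2 * m)) w (m ^ c) (m ^ v) Simple s),
        ApproximatesOn μ (fun ω => (B ω).eval) Simple triangle →
        (m : ℝ) ^ 2 ≤ 3000 * w * (v + c * w) * s :=
  fun _ _ _ _ hm hc hw hv _ _ μ hμ s B hB =>
    Pool.Agent.R617.WFT.bound hm hc hw hv μ hμ s B hB

end Pool.Agent.Results.MP_ad5e8e_lc.WordPrograms
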